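import Mathlib
import Pool.Agent.H275.UF.Filt

set_option autoImplicit false

open Set Filter Topology

namespace Pool.Agent.Results.MP_b2e206_gt.ClosedOpenNotZeroCozero

open Pool.Agent.H275UF

/-- `F` is an `R` filter: a (proper) filter with a base consisting of sets with property `R`. -/
def IsRFilter {X : Type} (R : Set X → Prop) (F : Filter X) : Prop :=
  F.NeBot ∧ ∀ A ∈ F, ∃ B ∈ F, R B ∧ B ⊆ A

/-- `F` is an `R` ultrafilter: an `R` filter which decides all sets with property `R`. -/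
def IsRUltra {X : Type} (R : Set X → Prop) (F : Filter X) : Prop :=
  IsRFilter R F ∧ ∀ A, R A → A ∈ F ∨ Aᶜ ∈ F

/-- zero sets: `f⁻¹(0)` with `f : X → [0,1]` continuous -/
def IsZeroSet {X : Type} [TopologicalSpace X] (A : Set X) : Prop :=
  ∃ f : C(X, Set.Icc (0 : ℝ) 1), A = {x | f x = 0}

/-- cozero sets: complements of zero sets -/
def IsCozeroSet {X : Type} [TopologicalSpace X] (A : Set X) : Prop := IsZeroSet Aᶜ

/-- There is a Tychonoff space with a free closed-open ultrafilter which is not a zero-cozero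
ultrafilter. -/
theorem result : ∃ (X : Type) (_ : TopologicalSpace X) (_ : T35Space X) (F : Filter X),
    (IsRUltra IsClosed F ∧ IsRUltra IsOpen F) ∧ ⋂₀ F.sets = ∅ ∧
      ¬ (IsRUltra IsZeroSet F ∧ IsRUltra IsCozeroSet F) := by
  obtain ⟨u, hu1, hu2⟩ := exists_ultra
  have hne : (FF u).NeBot := by
    refine ⟨fun h => ?_⟩
    have : (∅ : Set Pt) ∈ FF u := by rw [h]; exact mem_bot
    rw [mem_FF, interior_empty] at this
    exact u.neBot.ne (empty_mem_iff_bot.1 this)
  have hdense : ∀ W : Set Pt, IsOpen W → Dense W → W ∈ u := fun W h1 h2 =>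
    mem_of_superset (hu1 W h1 h2) (OW_sub (DN_nodes h1 h2))
  have hopen : ∀ U : Set Pt, IsOpen U → U ∈ FF u ∨ Uᶜ ∈ FF u := by
    intro U hU
    by_cases h : U ∈ u
    · left
      rw [mem_FF, hU.interior_eq]
      exact h
    · right
      rw [mem_FF, interior_compl]
      obtain ⟨h1, h2⟩ := dense_union_compl_closure U hU
      have h3 := hdense _ h1 h2
      have h4 : Uᶜ ∈ u := Ultrafilter.compl_mem_iff_notMem.2 h
      refine mem_of_superset (inter_mem h3 h4) ?_
      rintro x ⟨hx1 | hx1, hx2⟩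
      · exact absurd hx1 hx2
      · exact hx1
  refine ⟨Pt, inferInstance, inferInstance, FF u, ⟨⟨⟨hne, ?_⟩, ?_⟩, ⟨hne, ?_⟩, ?_⟩, ?_, ?_⟩
  · -- base of closed sets
    intro A hA
    obtain ⟨h1, h2⟩ := dense_union_compl_closure (interior A) isOpen_interior
    have hDN := DN_nodes h1 h2
    set W := interior A ∪ (closure (interior A))ᶜ with hW
    have h3 : OW W ∩ interior A ∈ u := inter_mem (hu1 W h1 h2) hA
    refine ⟨closure (OW W ∩ interior A), ?_, isClosed_closure, ?_⟩
    · rw [mem_FF]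
      exact mem_of_superset h3
        (interior_maximal subset_closure ((isOpen_OW hDN).inter isOpen_interior))
    · intro x hx
      have hx1 : x ∈ W := closure_OW hDN (closure_mono inter_subset_left hx)
      have hx2 : x ∈ closure (interior A) := closure_mono inter_subset_right hx
      rcases hx1 with hx1 | hx1
      · exact interior_subset hx1
      · exact absurd hx2 hx1
  · intro A hA
    rcases hopen Aᶜ hA.isOpen_compl with h | h
    · exact Or.inr h
    · rw [compl_compl] at h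
      exact Or.inl h
  · intro A hA
    refine ⟨interior A, ?_, isOpen_interior, interior_subset⟩
    rw [mem_FF, interior_interior]
    exact hA
  · exact hopen
  · rw [eq_empty_iff_forall_notMem]
    intro x hx
    have h1 : IsOpen ({x}ᶜ : Set Pt) := isOpen_compl_singleton
    have h2 : Dense ({x}ᶜ : Set Pt) := dense_compl_singleton_iff_not_open.2 (not_isOpen_singleton x)
    have h3 : ({x}ᶜ : Set Pt) ∈ FF u := by
      rw [mem_FF, h1.interior_eq]
      exact hdense _ h1 h2
    exact hx _ h3 rfl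
  · rintro ⟨⟨⟨-, hz⟩, -⟩, ⟨⟨-, hc⟩, -⟩⟩
    have hU0 : U0 ∈ FF u := by
      rw [mem_FF, isOpen_U0.interior_eq]
      exact mem_of_superset (hu1 univ isOpen_univ dense_univ) OW_sub_U0
    obtain ⟨Z, hZ, -, hZU⟩ := hz U0 hU0
    obtain ⟨V, hV, ⟨g, hg⟩, hVZ⟩ := hc Z hZ
    obtain ⟨Z', hZ', ⟨h, hh⟩, hZV⟩ := hz V hV
    have hg0 : ∀ x, g x = 0 ↔ x ∉ V := fun x => by
      have : x ∈ Vᶜ ↔ g x = 0 := by rw [hg]; rfl
      exact this.symm
    have hh0 : ∀ x, h x = 0 ↔ x ∈ Z' := fun x => by rw [hh]; rfl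
    have hpos : ∀ x, (g x : ℝ) + (h x : ℝ) ≠ 0 := by
      intro x hx
      have h1 := (g x).2.1
      have h2 := (h x).2.1
      have h3 : (g x : ℝ) = 0 := by linarith
      have h4 : (h x : ℝ) = 0 := by linarith
      have h5 : g x = 0 := Subtype.ext h3
      have h6 : h x = 0 := Subtype.ext h4
      exact (hg0 x).1 h5 (hZV ((hh0 x).1 h6))
    let f : C(Pt, ℝ) := ⟨fun x => (g x : ℝ) / ((g x : ℝ) + (h x : ℝ)), by
      refine Continuous.div (by fun_prop) (by fun_prop) hpos⟩
    have hf : ∀ x ∉ U0, f x = 0 := by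
      intro x hx
      have hxV : x ∉ V := fun hx' => hx (hZU (hVZ hx'))
      have h5 : g x = 0 := (hg0 x).2 hxV
      change (g x : ℝ) / ((g x : ℝ) + (h x : ℝ)) = 0
      rw [h5]
      simp
    have h1 := hu2 f hf
    have h2 : Z' ∈ u := mem_of_superset hZ' interior_subset
    obtain ⟨x, hx1, hx2⟩ := u.neBot.nonempty_of_mem (inter_mem h1 h2)
    have h6 : h x = 0 := (hh0 x).2 hx2
    have h7 : (g x : ℝ) / ((g x : ℝ) + (h x : ℝ)) < 1 := hx1
    have h8 : (h x : ℝ) = 0 := by rw [h6]; rfl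
    have h9 : (g x : ℝ) ≠ 0 := by
      intro h9
      exact hpos x (by rw [h8, h9]; norm_num)
    rw [h8, add_zero, div_self h9] at h7
    exact lt_irrefl _ h7

end Pool.Agent.Results.MP_b2e206_gt.ClosedOpenNotZeroCozero
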